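import Mathlib
import Pool.Agent.H176R4.TR.WMain

set_option autoImplicit false

/-!
# Weakly skew circuits with one gauge symmetry

`F K q h [] a₀` is the evaluation polynomial of the complete ternary tree of height `h` (the nodes
are the words `v` over `{0, 1, 2}` of length at most `h`, the children of `v` are the words `j :: v`)
with label `a₀ : Fin q` at the root: the sum, over all labellings `lam` of the nodes with
`lam [] = a₀`, of the product over the nodes `v` of the variables
`x (v; lam v, lam (0 :: v), lam (1 :: v), lam (2 :: v))` (for the leaves: `x (v; lam v)`).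
A gauge transformation is a scaling of the variables, given by nonzero field elements `α (v, a)`:
`x (v; a, b) ↦ α (v, a) * ∏ j, α (j :: v, b j) ⁻¹ * x (v; a, b)` and `x (v; a) ↦ α (v, a) * x (v; a)`.

The circuits have variable gates, constant gates, gates for linear combinations of any number of
gates, and product gates with two inputs. `WeaklySkew D` means: at every product gate, one of the
two incoming wires separates the sub-circuit feeding it from the rest of the circuit (as in the
definition of weakly skew circuits), or one of the two multiplied polynomials has degree at most `D`.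

1. Let `D < (3 ^ (k + 1) - 1) / 2` (the number of nodes of the tree of height `k`) and `k ≤ h`. A
   circuit with `WeaklySkew D` which computes `F K q h [] a₀`, or any other polynomial in which the
   monomials of all these labellings have nonzero coefficients, has at least `q ^ (h + 1 - k)` gates
   if one gauge transformation given by a multiplicatively independent family `α` maps the
   polynomial of every gate to a scalar multiple of the polynomial of a gate. For weakly skew
   circuits (and for skew circuits) `D = 1`, `k = 1` gives `q ^ h` gates.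
2. `F K q h [] a₀` is computed by a circuit with at most `2 * 3 ^ (h + 1) * q ^ 4` gates all of whose
   gates are mapped to multiples of themselves by all gauge transformations.
3. Multiplicatively independent families exist over every field of characteristic zero.
4. For all `c` and `r ≥ 1` there are `h`, `q` and `D = (3 ^ h) ^ (1 - 1 / r)` such that every
   circuit for `F K q h [] a₀` as in 1 has more than `(2 * 3 ^ (h + 1) * q ^ 4) ^ c` gates: the
   symmetric circuits with `WeaklySkew D` are superpolynomially larger than the circuits in 2.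
-/

namespace Pool.Agent.Results.MP_f18ce0_lc.OneScalingTree

open MvPolynomial
open Pool.Agent.H176R4.MT (Circuit Kind)
open Pool.Agent.H176R4.TR

theorem result :
    (∀ (K : Type) [Field K] (D k h q : ℕ) (a₀ : Fin q) (Φ : Circuit K (Var q)) (out : Φ.Gate),
      1 ≤ D → 2 * D + 1 < 3 ^ (k + 1) → k ≤ h → WeaklySkew D Φ →
      (∀ lam : List (Fin 3) → Fin q, lam [] = a₀ →
        coeff (mon h lam (nodes h [])) (Φ.val out) ≠ 0) →
      ∀ α : Idx q → Kˣ, Independent α → Symm Φ α → q ^ (h + 1 - k) ≤ Nat.card Φ.Gate) ∧
    (∀ (K : Type) [Field K] (h q : ℕ) (a₀ : Fin q),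
      (∀ lam : List (Fin 3) → Fin q, lam [] = a₀ →
        coeff (mon h lam (nodes h [])) (F K q h [] a₀) = 1) ∧
      ∃ (Φ : Circuit K (Var q)) (out : Φ.Gate), Φ.val out = F K q h [] a₀ ∧
        Nat.card Φ.Gate ≤ 2 * 3 ^ (h + 1) * q ^ 4 ∧
        ∀ (α : Idx q → Kˣ) (g : Φ.Gate), ∃ c : K, scale α (Φ.val g) = C c * Φ.val g) ∧
    (∀ (K : Type) [Field K] [CharZero K] (q : ℕ), ∃ α : Idx q → Kˣ, Independent α) ∧
    (∀ (K : Type) [Field K] (c r : ℕ), 1 ≤ r → ∃ (h q D : ℕ) (a₀ : Fin q),
      D ^ r = (3 ^ h) ^ (r - 1) ∧
      ∀ (Φ : Circuit K (Var q)) (out : Φ.Gate), WeaklySkew D Φ → Φ.val out = F K q h [] a₀ →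
        ∀ α : Idx q → Kˣ, Independent α → Symm Φ α →
          (2 * 3 ^ (h + 1) * q ^ 4) ^ c < Nat.card Φ.Gate) := by
  refine ⟨?_, ?_, ?_, ?_⟩
  · intro K _ D k h q a₀ Φ out hD hk hh hw hout α hi hS
    exact weakly_symm_bound D k hD hk Φ hw h hh a₀ out hout α hi hS
  · intro K _ h q a₀
    exact ⟨fun lam hl => coeff_F h lam a₀ hl, ucirc K h q, gB ⟨[], rootNN_len h⟩ a₀,
      ucirc_out K h q a₀, ucirc_gates K h q a₀, fun α g => ucirc_symm h q α g⟩
  · intro K _ _ q
    exact exists_independent K q
  · intro K _ c r hr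
    -- `m = 5 c + 3`, `h = r m`, `k = (r - 1) m + 1`, `q = 3 ^ h`
    obtain ⟨t, rfl⟩ : ∃ t, r = t + 1 := ⟨r - 1, by omega⟩
    set m := 5 * c + 3 with hm
    have hq : 0 < 3 ^ ((t + 1) * m) := Nat.pow_pos (by norm_num)
    refine ⟨(t + 1) * m, 3 ^ ((t + 1) * m), 3 ^ (t * m), ⟨0, hq⟩, ?_, ?_⟩
    · rw [Nat.add_sub_cancel, ← pow_mul, ← pow_mul]
      congr 1
      ring
    · intro Φ out hw hF α hi hS
      have hD : 1 ≤ 3 ^ (t * m) := Nat.one_le_pow _ _ (by norm_num)
      have hk : 2 * 3 ^ (t * m) + 1 < 3 ^ (t * m + 1 + 1) := by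
        rw [pow_succ, pow_succ]
        omega
      have hkh : t * m + 1 ≤ (t + 1) * m := by
        rw [add_mul, one_mul]
        omega
      have h1 := weakly_symm_bound (3 ^ (t * m)) (t * m + 1) hD hk Φ hw ((t + 1) * m) hkh
        ⟨0, hq⟩ out (fun lam hl => by rw [hF, coeff_F _ lam _ hl]; exact one_ne_zero) α hi hS
      refine lt_of_lt_of_le ?_ h1
      have h2 : (t + 1) * m + 1 - (t * m + 1) = m := by
        rw [add_mul, one_mul]
        omega
      rw [h2]
      have h3 : 2 * 3 ^ ((t + 1) * m + 1) * (3 ^ ((t + 1) * m)) ^ 4 ≤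
          3 ^ (5 * ((t + 1) * m) + 2) := by
        calc 2 * 3 ^ ((t + 1) * m + 1) * (3 ^ ((t + 1) * m)) ^ 4
            ≤ 3 * 3 ^ ((t + 1) * m + 1) * (3 ^ ((t + 1) * m)) ^ 4 := by gcongr; norm_num
          _ = 3 ^ (5 * ((t + 1) * m) + 2) := by
              rw [← pow_mul, ← pow_succ', ← pow_add]
              congr 1
              ring
      calc (2 * 3 ^ ((t + 1) * m + 1) * (3 ^ ((t + 1) * m)) ^ 4) ^ c
          ≤ (3 ^ (5 * ((t + 1) * m) + 2)) ^ c := Nat.pow_le_pow_left h3 c
        _ = 3 ^ ((5 * ((t + 1) * m) + 2) * c) := by rw [← pow_mul]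
        _ < 3 ^ ((t + 1) * m * m) := by
            apply Nat.pow_lt_pow_right (by norm_num)
            have h4 : m ≤ (t + 1) * m := Nat.le_mul_of_pos_left _ (by omega)
            have h5 : (t + 1) * m * m = (t + 1) * m * (5 * c) + 3 * ((t + 1) * m) := by
              conv_lhs => rw [hm, mul_add, ← hm]
              ring
            rw [h5]
            nlinarith
        _ = (3 ^ ((t + 1) * m)) ^ m := by rw [← pow_mul]

end Pool.Agent.Results.MP_f18ce0_lc.OneScalingTree
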