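import Mathlib
import Pool.Agent.H176R4.TR.Homog

set_option autoImplicit false

/-!
# The homogeneous components in skew circuits for tree polynomials

`F K q h [] a₀` is the evaluation polynomial of the complete ternary tree of height `h` with label
`a₀ : Fin q` at the root: `F 0 v a = x (v; a)` and
`F (h + 1) v a = ∑ b, x (v; a, b) * ∏ j, F h (j :: v) (b j)`. The labelling monomials are the
monomials `∏ v, x (v; lam v, lam (0 :: v), lam (1 :: v), lam (2 :: v))` for the labellings `lam` with
`lam [] = a₀`; the coefficient of each of them in `F K q h [] a₀` is `1`. The variables are graded: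
the weight of `x (v; a, b)` is `+1` at `(v, a)` and `-1` at `(j :: v, b j)`, the weight of
`x (v; a)` is `+1` at `(v, a)`.

The circuits have variable gates, constant gates, gates for linear combinations of any number of
gates, and product gates with two inputs.

1. Let `D < (3 ^ (k + 1) - 1) / 2` (the number of nodes of the tree of height `k`) and `k ≤ h`. Let a
   circuit compute a polynomial in which all labelling monomials occur, and let, in every product
   `a * b`, the polynomial of `b` have degree at most `D` (skew circuits: `D = 1`, `k = 1`). No
   symmetry or homogeneity is assumed. Then there are at least `q ^ (h + 1 - k)` pairs of a product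
   gate `a * b` and a weight which occurs in `a`. So at least `q ^ (h + 1 - k) / s` different
   weights occur in the polynomial of some `a`, where `s` is the number of product gates. If the
   span of the polynomials of the gates is mapped to itself by one scaling of the variables given
   by multiplicatively independent numbers, then `s` times the dimension of the span is at least
   `q ^ (h + 1 - k)`.
2. Without the restriction on the products, there are circuits for `F K q h [] a₀` with at most
   `3 ^ (h + 1) * q ^ 4` product gates and at most so many pairs as in 1.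
-/

namespace Pool.Agent.Results.MP_f18ce0_lc.SkewComponents

open MvPolynomial
open Pool.Agent.H176R4.MT (Circuit Kind)
open Pool.Agent.H176R4.TR

theorem result :
    (∀ (K : Type) [Field K] (D k h q : ℕ) (a₀ : Fin q) (Φ : Circuit K (Var q)) (out : Φ.Gate),
      1 ≤ D → 2 * D + 1 < 3 ^ (k + 1) → k ≤ h → Skew D Φ →
      (∀ lam : List (Fin 3) → Fin q, lam [] = a₀ →
        coeff (mon h lam (nodes h [])) (Φ.val out) ≠ 0) →
      q ^ (h + 1 - k) ≤ (components Φ).ncard ∧
      (∃ g a b, Φ.kind g = .mul a b ∧
        q ^ (h + 1 - k) ≤ Φ.products * (weightsOf (Φ.val a)).ncard) ∧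
      ∀ α : Idx q → Kˣ, Independent α →
        (∀ g, scale α (Φ.val g) ∈ Submodule.span K (Set.range Φ.val)) →
          q ^ (h + 1 - k) ≤
            Φ.products * Module.finrank K (Submodule.span K (Set.range Φ.val))) ∧
    (∀ (K : Type) [Field K] (h q : ℕ) (a₀ : Fin q),
      (∀ lam : List (Fin 3) → Fin q, lam [] = a₀ →
        coeff (mon h lam (nodes h [])) (F K q h [] a₀) = 1) ∧
      ∃ (Φ : Circuit K (Var q)) (out : Φ.Gate), Φ.val out = F K q h [] a₀ ∧
        Φ.products ≤ 3 ^ (h + 1) * q ^ 4 ∧ (components Φ).ncard ≤ 3 ^ (h + 1) * q ^ 4) := by
  refine ⟨?_, ?_⟩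
  · intro K _ D k h q a₀ Φ out hD hk hh hs hout
    have h1 := components_bound D k hD hk Φ hs h hh a₀ out hout
    exact ⟨h1, exists_many Φ _ (Nat.one_le_pow _ _ a₀.pos) h1,
      fun α hi hS => span_bound D k hD hk Φ hs h hh a₀ out hout α hi hS⟩
  · intro K _ h q a₀
    exact ⟨fun lam hl => coeff_F h lam a₀ hl, ucirc K h q, gB ⟨[], rootNN_len h⟩ a₀,
      ucirc_out K h q a₀, ucirc_products K h q a₀, ucirc_components K h q a₀⟩

end Pool.Agent.Results.MP_f18ce0_lc.SkewComponents
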